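import Pool.Agent.W434.BW.StmA

/-!
Project BW (helper434), part MPC: the core of the meet prime property.
-/

set_option autoImplicit false

namespace Pool.Agent.W977.BW

open Pool.Agent.W434.BW

variable {Ω : Type} {ar : Ω → ℕ}

/-- the data of the core of the meet prime property -/
structure Dat (u : Tm ar (Fin 3)) {X Y Q : Type} (a : Alg ar X) (b : Alg ar Y) (q : Alg ar Q)
    (R : X → Y → Prop) (h : X → Y → Q) : Prop where
  na : Nice u a
  nb : Nice u b
  rel : Rel a b R
  sd : SD R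
  lk : Linked R
  hom : ∀ ω x y, (∀ i, R (x i) (y i)) → h (a ω x) (b ω y) = q ω (fun i => h (x i) (y i))
  s1 : ∀ x z, ∃ y, R x y ∧ h x y = z
  s2 : ∀ y z, ∃ x, R x y ∧ h x y = z

theorem linked_flip {X Y : Type} {R : X → Y → Prop} (hs : SD R) (hl : Linked R) :
    Linked (fun y x => R x y) := by
  have key : ∀ x x', Relation.ReflTransGen (fun a b => ∃ y, R a y ∧ R b y) x x' →
      ∀ y y', R x y → R x' y' →
        Relation.ReflTransGen (fun a b => ∃ x, R x a ∧ R x b) y y' := by
    intro x x' hx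
    induction hx with
    | refl =>
      intro y y' h1 h2
      exact Relation.ReflTransGen.single ⟨x, h1, h2⟩
    | tail _ hstep ih =>
      intro y y' h1 h2
      obtain ⟨w, hw1, hw2⟩ := hstep
      exact (ih y w h1 hw1).tail ⟨_, hw2, h2⟩
  intro y y'
  obtain ⟨x, hx⟩ := hs.2 y
  obtain ⟨x', hx'⟩ := hs.2 y'
  exact key x x' (hl x x') y y' hx hx'

theorem Dat.flip {u : Tm ar (Fin 3)} {X Y Q : Type} {a : Alg ar X} {b : Alg ar Y} {q : Alg ar Q}
    {R : X → Y → Prop} {h : X → Y → Q} (hd : Dat u a b q R h) :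
    Dat u b a q (fun y x => R x y) (fun y x => h x y) where
  na := hd.nb
  nb := hd.na
  rel := fun ω x y hxy => hd.rel ω y x hxy
  sd := ⟨hd.sd.2, hd.sd.1⟩
  lk := linked_flip hd.sd hd.lk
  hom := fun ω x y hxy => hd.hom ω y x hxy
  s1 := hd.s2
  s2 := hd.s1

theorem Dat.ev {u : Tm ar (Fin 3)} {X Y Q : Type} {a : Alg ar X} {b : Alg ar Y} {q : Alg ar Q}
    {R : X → Y → Prop} {h : X → Y → Q} (hd : Dat u a b q R h) {V : Type} (t : Tm ar V)
    (x : V → X) (y : V → Y) (hxy : ∀ v, R (x v) (y v)) :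
    h (t.ev a x) (t.ev b y) = t.ev q (fun v => h (x v) (y v)) := by
  induction t with
  | var v => rfl
  | app ω t ih =>
    show h (a ω _) (b ω _) = q ω _
    rw [hd.hom ω _ _ (fun i => ev_rel hd.rel (t i) x y hxy)]
    congr 1
    funext i
    exact ih i

/-- the induction step when the left algebra has a proper absorbing subuniverse -/
theorem step (hK : S_link) {u : Tm ar (Fin 3)} {X Y Q : Type} [Finite X] [Finite Y]
    {a : Alg ar X} {b : Alg ar Y} {q : Alg ar Q} {R : X → Y → Prop} {h : X → Y → Q}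
    (hq : Nice u q) (hAF : AF q) (hd : Dat u a b q R h)
    (IH : ∀ (X' Y' : Type) [Finite X'] [Finite Y'] [Nonempty X'] (a' : Alg ar X') (b' : Alg ar Y')
      (R' : X' → Y' → Prop) (h' : X' → Y' → Q), Dat u a' b' q R' h' →
      Nat.card X' + Nat.card Y' < Nat.card X + Nat.card Y → ∀ z z' : Q, z = z')
    (hX : ¬ AF a) : ∀ z z' : Q, z = z' := by
  unfold AF at hX
  push Not at hX
  obtain ⟨C, hC, hCn, ⟨t, ht⟩, hCu⟩ := hX
  set D : Set Y := {y | ∃ c ∈ C, R c y} with hD
  have hDs : Sub b D := by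
    intro ω y hy
    choose c hc hcy using hy
    exact ⟨a ω c, hC ω c hc, hd.rel ω c y hcy⟩
  have hDa : Abs3 b t D := by
    rintro d ⟨c, hc, hcd⟩ d' ⟨c', hc', hcd'⟩ y
    obtain ⟨x, hx⟩ := hd.sd.2 y
    obtain ⟨h1, h2, h3⟩ := ht c hc c' hc' x
    refine ⟨⟨_, h1, ev_rel hd.rel t _ _ ?_⟩, ⟨_, h2, ev_rel hd.rel t _ _ ?_⟩,
      ⟨_, h3, ev_rel hd.rel t _ _ ?_⟩⟩ <;>
    · intro v
      fin_cases v
      · assumption
      · assumption
      · assumption
  have hlk := hK Ω ar X Y a b R t C D hd.na.1 hd.rel ht hDa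
    (fun c hc => by
      obtain ⟨y, hy⟩ := hd.sd.1 c
      exact ⟨y, ⟨c, hc, hy⟩, hy⟩) hd.lk
  haveI : Nonempty C := hCn.to_subtype
  refine IH C D (subA a C hC) (subA b D hDs) (fun c d => R c d) (fun c d => h c d)
    { na := nice_sub C hC hd.na
      nb := nice_sub D hDs hd.nb
      rel := fun ω x y hxy => hd.rel ω _ _ hxy
      sd := ⟨fun c => ?_, fun d => ?_⟩
      lk := ?_
      hom := fun ω x y hxy => hd.hom ω _ _ hxy
      s1 := ?_
      s2 := ?_ } ?_
  · obtain ⟨y, hy⟩ := hd.sd.1 c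
    exact ⟨⟨y, ⟨c, c.2, hy⟩⟩, hy⟩
  · obtain ⟨c, hc, hcd⟩ := d.2
    exact ⟨⟨c, hc⟩, hcd⟩
  · have key : ∀ x x' : X,
        Relation.ReflTransGen (fun x x' => x ∈ C ∧ x' ∈ C ∧ ∃ y ∈ D, R x y ∧ R x' y) x x' →
        ∀ (hx : x ∈ C) (hx' : x' ∈ C), Relation.ReflTransGen
          (fun (p r : C) => ∃ y : D, R p y ∧ R r y) ⟨x, hx⟩ ⟨x', hx'⟩ := by
      intro x x' hxx
      induction hxx with
      | refl => intro _ _; exact Relation.ReflTransGen.refl
      | tail _ hs ih =>
        intro hx hx'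
        obtain ⟨h1, _, y, hy, h3, h4⟩ := hs
        exact (ih hx h1).tail ⟨⟨y, hy⟩, h3, h4⟩
    intro c c'
    exact key c c' (hlk c c.2 c' c'.2) c.2 c'.2
  · intro c z
    obtain ⟨y, hy, hz⟩ := hd.s1 c z
    exact ⟨⟨y, ⟨c, c.2, hy⟩⟩, hy, hz⟩
  · rintro ⟨d, c0, hc0, hcd0⟩ z
    have hZ : {z : Q | ∃ c ∈ C, R c d ∧ h c d = z} = Set.univ := by
      have hbd : ∀ ω, b ω (fun _ => d) = d := fun ω => hd.nb.1 ω d
      have htd : t.ev b (fun _ => d) = d := ev_idem hd.nb.1 t d
      have h3d : (![d, d, d] : Fin 3 → Y) = fun _ => d := by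
        funext v; fin_cases v <;> rfl
      apply hAF
      · intro ω z hz
        choose c hc hcd hcz using hz
        refine ⟨a ω c, hC ω c hc, ?_, ?_⟩
        · have := hd.rel ω c (fun _ => d) hcd
          rwa [hbd] at this
        · have := hd.hom ω c (fun _ => d) hcd
          rw [hbd] at this
          rw [this]
          congr 1
          funext i
          exact hcz i
      · exact ⟨h c0 d, c0, hc0, hcd0, rfl⟩
      · refine ⟨t, ?_⟩
        rintro z1 ⟨c1, hc1, hr1, hz1⟩ z2 ⟨c2, hc2, hr2, hz2⟩ w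
        obtain ⟨x, hx, hw⟩ := hd.s2 d w
        obtain ⟨h1, h2, h3⟩ := ht c1 hc1 c2 hc2 x
        have key : ∀ p1 p2 p3 : X, R p1 d → R p2 d → R p3 d →
            R (t.ev a ![p1, p2, p3]) d ∧
            h (t.ev a ![p1, p2, p3]) d = t.ev q ![h p1 d, h p2 d, h p3 d] := by
          intro p1 p2 p3 g1 g2 g3
          have hv : ∀ v, R ((![p1, p2, p3] : Fin 3 → X) v) ((fun _ => d : Fin 3 → Y) v) := by
            intro v
            fin_cases v
            · exact g1
            · exact g2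
            · exact g3
          have e1 := ev_rel hd.rel t _ _ hv
          have e2 := hd.ev t _ _ hv
          rw [htd] at e1 e2
          refine ⟨e1, ?_⟩
          rw [e2]
          congr 1
          exact vec3 (fun p => h p d) p1 p2 p3
        refine ⟨⟨_, h1, (key c1 c2 x hr1 hr2 hx).1, ?_⟩, ⟨_, h2, (key c1 x c2 hr1 hx hr2).1, ?_⟩,
          ⟨_, h3, (key x c1 c2 hx hr1 hr2).1, ?_⟩⟩
        · rw [(key c1 c2 x hr1 hr2 hx).2, hz1, hz2, hw]
        · rw [(key c1 x c2 hr1 hx hr2).2, hz1, hz2, hw]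
        · rw [(key x c1 c2 hx hr1 hr2).2, hz1, hz2, hw]
    have : z ∈ {z : Q | ∃ c ∈ C, R c d ∧ h c d = z} := by rw [hZ]; trivial
    obtain ⟨c, hc, hcd, hcz⟩ := this
    exact ⟨⟨c, hc⟩, hcd, hcz⟩
  · have h1 : Nat.card C < Nat.card X := by
      have hlt : C.ncard < (Set.univ : Set X).ncard :=
        Set.ncard_lt_ncard (Set.ssubset_univ_iff.mpr hCu) Set.finite_univ
      rw [Set.ncard_univ] at hlt
      exact hlt
    have h2 : Nat.card D ≤ Nat.card Y := Nat.card_le_card_of_injective _ Subtype.val_injective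
    omega

/-- the case of two absorption free algebras -/
theorem base (hA : S_abs) (hL : S_L) {u : Tm ar (Fin 3)} {X Y Q : Type} [Finite X] [Finite Y]
    [Finite Q] [Nonempty X]
    {a : Alg ar X} {b : Alg ar Y} {q : Alg ar Q} {R : X → Y → Prop} {h : X → Y → Q}
    (hq : Nice u q) (hAF : AF q) (hS : Simple q) (hN : NoLatin q) (hd : Dat u a b q R h)
    (hX : AF a) (hY : AF b) : ∀ z z' : Q, z = z' := by
  have hR := hA Ω ar u X Y a b R hd.na hd.nb hX hY hd.rel hd.sd hd.lk
  by_contra hcon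
  push Not at hcon
  obtain ⟨z, z', hzz⟩ := hcon
  obtain ⟨x0⟩ := ‹Nonempty X›
  obtain ⟨y0, _⟩ := hd.sd.1 x0
  -- not constant in either variable
  have c1 : ∀ x (w : Q), ¬ ∀ y, h x y = w := by
    intro x w hw
    obtain ⟨y, _, hy⟩ := hd.s1 x z
    obtain ⟨y', _, hy'⟩ := hd.s1 x z'
    exact hzz (by rw [← hy, ← hy', hw, hw])
  have c2 : ∀ y (w : Q), ¬ ∀ x, h x y = w := by
    intro y w hw
    obtain ⟨x, _, hx⟩ := hd.s2 y z
    obtain ⟨x', _, hx'⟩ := hd.s2 y z'
    exact hzz (by rw [← hx, ← hx', hw, hw])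
  set f : Fin 2 → X × Y → Q := ![fun p => h x0 p.2, fun p => h p.1 p.2] with hf
  have f0 : ∀ p, f 0 p = h x0 p.2 := fun p => rfl
  have f1 : ∀ p, f 1 p = h p.1 p.2 := fun p => rfl
  clear_value f
  have hax : ∀ ω, a ω (fun _ => x0) = x0 := fun ω => hd.na.1 ω x0
  obtain ⟨ξ, _, hξ⟩ := hL Ω ar u (X × Y) X Q (prodA a b) a q Prod.fst 2 f
    (nice_prod hd.na hd.nb) hd.na hq hX hAF hS hN
    (fun ω p => rfl) (fun x => ⟨(x, y0), rfl⟩)
    (by
      intro i
      fin_cases i
      · intro ω p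
        show f 0 _ = q ω (fun i => f 0 _)
        simp only [f0]
        have := hd.hom ω (fun _ => x0) (fun i => (p i).2) (fun i => hR _ _)
        rw [hax] at this
        exact this
      · intro ω p
        show f 1 _ = q ω (fun i => f 1 _)
        simp only [f1]
        exact hd.hom ω (fun i => (p i).1) (fun i => (p i).2) (fun i => hR _ _))
    (by
      intro i
      fin_cases i
      · intro w
        obtain ⟨y, _, hy⟩ := hd.s1 x0 w
        exact ⟨(x0, y), (f0 _).trans hy⟩
      · intro w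
        obtain ⟨y, _, hy⟩ := hd.s1 x0 w
        exact ⟨(x0, y), (f1 _).trans hy⟩)
    (by
      have h01 : ∀ τ : Q → Q, ∃ ξ, f 1 ξ ≠ τ (f 0 ξ) := by
        intro τ
        by_contra hc
        push Not at hc
        exact c2 y0 (τ (h x0 y0)) (fun x => by
          have := hc (x, y0)
          rwa [f0, f1] at this)
      have h10 : ∀ τ : Q → Q, ∃ ξ, f 0 ξ ≠ τ (f 1 ξ) := by
        intro τ
        by_contra hc
        push Not at hc
        have hc' : ∀ x y, h x0 y = τ (h x y) := fun x y => by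
          have := hc (x, y)
          rwa [f0, f1] at this
        have hsur : Function.Surjective τ := by
          intro w
          obtain ⟨y, _, hy⟩ := hd.s1 x0 w
          exact ⟨h x0 y, by rw [← hc' x0 y, hy]⟩
        have hinj : Function.Injective τ := Finite.injective_iff_surjective.mpr hsur
        exact c2 y0 (h x0 y0) (fun x => hinj (by rw [← hc' x y0, ← hc' x0 y0]))
      intro i j hij τ
      fin_cases i <;> fin_cases j
      · exact absurd rfl hij
      · exact h01 τ
      · exact h10 τ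
      · exact absurd rfl hij)
    (by
      intro i g
      by_contra hc
      push Not at hc
      fin_cases i
      · exact c1 x0 (g x0) (fun y => (f0 (x0, y)).symm.trans (hc (x0, y)))
      · exact c1 x0 (g x0) (fun y => (f1 (x0, y)).symm.trans (hc (x0, y))))
    x0 ![z, z']
  rename_i hξ1
  have e0 := hξ 0
  have e1 := hξ 1
  rw [f0] at e0
  rw [f1, hξ1] at e1
  exact hzz (e0.symm.trans e1)

theorem mpcore (hA : S_abs) (_hp : S_prodAF) (hL : S_L) (hK : S_link) : S_mpcore := by
  intro Ω ar u X Y Q _ _ _ _ a b q R h na nb nq hAF hS hN hrel hsd hlk hhom hs1 hs2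
  have main : ∀ (n : ℕ) (X Y : Type) [Finite X] [Finite Y] [Nonempty X] (a : Alg ar X)
      (b : Alg ar Y) (R : X → Y → Prop) (h : X → Y → Q), Dat u a b q R h →
      Nat.card X + Nat.card Y = n → ∀ z z' : Q, z = z' := by
    intro n
    induction n using Nat.strong_induction_on with
    | _ n ih =>
      intro X Y _ _ _ a b R h hd hn
      by_cases hX : AF a
      · by_cases hY : AF b
        · exact base hA hL nq hAF hS hN hd hX hY
        · haveI : Nonempty Y := by
            obtain ⟨x⟩ := ‹Nonempty X›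
            obtain ⟨y, _⟩ := hd.sd.1 x
            exact ⟨y⟩
          refine step hK nq hAF hd.flip ?_ hY
          intro X' Y' _ _ _ a' b' R' h' hd' hlt
          exact ih _ (by omega) X' Y' a' b' R' h' hd' rfl
      · refine step hK nq hAF hd ?_ hX
        intro X' Y' _ _ _ a' b' R' h' hd' hlt
        exact ih _ (by omega) X' Y' a' b' R' h' hd' rfl
  exact main _ X Y a b R h ⟨na, nb, hrel, hsd, hlk, hhom, hs1, hs2⟩ rfl

end Pool.Agent.W977.BW
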